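import Pool.Agent.H15.G.R_seed8.TH864.SX.Thirteen
import Pool.Agent.H15.G.R_seed8.TH978.S13.Step3

/-! The expected dimension for equal multiplicities at 13 general points. -/

namespace Pool.Agent.TH864.SX

open Finset Pool.Agent.TH176.Nag Pool.Agent.TH603.Sur Pool.Agent.TH603.Cut Pool.Agent.TH641.NW
  Pool.Agent.TH641.UM Pool.Agent.H932R3

theorem step3_13 : Step3 1 13 K13 := by
  intro m d _ h0 hX hk
  have h := num13
  have hK9 := h.K9
  have hKe : K13 ^ 2 = 9 * K13 + 9 := by
    have := h.eq
    push_cast at this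
    linarith
  have ha : ∀ g : ℝ, aR K13 d g = K13 * d / 3 - (K13 + 2) * g := by
    intro g
    unfold aR rr
    linear_combination (-(2 / 9) * g) * hKe
  have hK1 : 0 < K13 + 1 := by linarith
  have hb : ∀ g : ℝ, (aR K13 d g - 1) / (K13 + 1) = bR K13 d g + 1 := by
    intro g
    rw [div_eq_iff hK1.ne']
    unfold aR bR rr
    linear_combination (-(1 / 3) * (d : ℝ) + 2 / 9 + (2 * K13 / 9 - 1) * (g + 1)) * hKe
  have key : Emp (fun _ : Fin (9 + 4) => m) (Pool.Agent.TH978.S13.Blk K13 (K13 * d / 3)) := by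
    refine Pool.Agent.TH978.S13.step3_blk (by linarith) (by push_cast; linarith) ?_ ?_ ?_
    · have := ha m
      linarith
    · have h1 := h.sum (d := d) (m := m) (m : ℝ)
      have h2 := hb m
      have h3 : aR K13 d m - 1 < 0 := by
        by_contra hcon
        push Not at hcon
        have h4 : 0 ≤ (aR K13 d m - 1) / (K13 + 1) := div_nonneg hcon hK1.le
        simp only [sub_self, mul_zero, zero_add] at h1
        push_cast at h1 hX
        linarith
      have := ha m
      linarith
    · obtain ⟨k, hk1, hk2⟩ := hk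
      refine ⟨k, hk1, ?_⟩
      rw [← ha k, hb k, Int.floor_add_one]
      unfold cnt at hk2
      push_cast at hk2 ⊢
      linarith
  refine key.comap 1 (-1) 0 1 0 0 (by norm_num) ?_
  rintro ⟨t, k⟩ hp
  have e : ((1 * t + -1 * k + 0, 0 * t + 1 * k + 0) : ℤ × ℤ) = (t - k, k) := by
    ext
    · simp only; ring
    · simp only; ring
  simp only
  rw [e]
  rcases hp with ⟨g1, g2, g3, g4⟩ | ⟨-, g5⟩
  · simp only at g1 g2 g3 g4
    left
    refine ⟨by simp only; push_cast at g3; omega, g2, ?_⟩
    simp only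
    push_cast
    linarith
  · right
    obtain ⟨rfl, rfl⟩ : t = 0 ∧ k = 0 := by simpa using g5
    simp

/-- **The expected dimension of all linear systems of plane curves with 13 general points of one
multiplicity.** -/
theorem uniform13 (m : ℕ) :
    ∃ F : MvPolynomial (Fin 13 × Fin 2) ℚ, F ≠ 0 ∧ ∀ {L : Type} [Field L] [CharZero L]
      (P : Fin 13 → Fin 2 → L), MvPolynomial.aeval (fun ij : Fin 13 × Fin 2 => P ij.1 ij.2) F ≠ 0 →
      ∀ d, ExpDim L (fun _ => m) P d :=
  expDim_all num13 K13_lt step3_13 m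

end Pool.Agent.TH864.SX
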